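import Pool.Agent.N768.BG.Div
import Pool.Agent.N768.BG.Cx

/-!
# Project BG (helper208), part PD: division algebras of prime degree (helper768)
-/

set_option autoImplicit false
set_option linter.unusedSectionVars false

open Module Matrix

noncomputable section

namespace Pool.Agent.N768.BGPD

open Pool.Agent.Y102 Pool.Agent.W516.DR Pool.Agent.H204R3.GP Pool.Agent.W516.KC
  Pool.Agent.H204R3.SP Pool.Agent.TH119.MX Pool.Agent.R917 Pool.Agent.N208.AM Pool.Agent.N208.AD
  Pool.Agent.N208.BT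

variable {g : ℕ} {A : AbVar g}

theorem CB_one : (1 : Module.End ℚ A.H1) ∈ CB A := fun P _ => by rw [one_mul, mul_one]

theorem CB_mul {X Y : Module.End ℚ A.H1} (hX : X ∈ CB A) (hY : Y ∈ CB A) : X * Y ∈ CB A :=
  fun P hP => by rw [mul_assoc, hY P hP, ← mul_assoc, hX P hP, mul_assoc]

theorem NA_CB {X : Module.End ℚ A.H1} (hX : X ∈ A.NA) : X ∈ CB A := fun _ hP => A.NA_comm hX hP

theorem ext_one : A.ext (1 : Module.End ℚ A.H1) = 1 := by
  refine A.ext_per fun u => ?_
  rw [A.ext_apply, Module.End.one_apply, Module.End.one_apply]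

theorem CB_adjoin {𝔮 : Submodule ℚ (Module.End ℚ A.H1)} (hq : A.Full 𝔮)
    {X : Module.End ℚ A.H1} (hX : X ∈ CB A) :
    X ∈ Algebra.adjoin ℚ (𝔮 : Set (Module.End ℚ A.H1)) := by
  refine mem_adjoin_of_comm hq.semi fun P hP => hX P fun Y hY => ?_
  exact hq.comm P hP Y (A.LA_le_NA hY)

section

variable {z : Module.End ℚ A.H1} {al : ℝ} (h : HQ A z al) {N : ℕ} {sg : Fin N → ℝ}
  {φ : VN N →ₗ[ℝ] (Fin g → ℂ)} (w : WN A z al N sg φ)

include h w

theorem ext_z (x : VN N) : A.ext z (φ x) = φ (((al : ℂ) * Complex.I) • x) := by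
  have h2 : al • φ (Complex.I • x) = A.ext z (φ x) := by
    rw [w.mulI, smul_smul, mul_inv_cancel₀ h.ne, one_smul]
  rw [← h2, ← map_smul, mul_smul, Complex.coe_smul]

/-- endomorphisms which agree on the image of `z` -/
theorem ext_gen {Z T : Module.End ℚ A.H1} (hZ : Z * z = T * z) (x : VN N) :
    A.ext Z (φ x) = A.ext T (φ x) := by
  have hc : ((al : ℂ) * Complex.I) ≠ 0 :=
    mul_ne_zero (by exact_mod_cast h.ne) Complex.I_ne_zero
  have e1 : φ x = A.ext z (φ (((al : ℂ) * Complex.I)⁻¹ • x)) := by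
    rw [ext_z h w, smul_smul, mul_inv_cancel₀ hc, one_smul]
  have e2 := congrArg (fun F => A.ext F (φ (((al : ℂ) * Complex.I)⁻¹ • x))) hZ
  simp only [Pool.Agent.N208.AD.ext_mul, Module.End.mul_apply] at e2
  rw [← e1] at e2
  exact e2

theorem ext_aeval (q : Polynomial ℚ) (x : VN N) : A.ext (Polynomial.aeval z q) (φ x) =
    φ ((Polynomial.aeval ((al : ℂ) * Complex.I) q) • x) := by
  induction q using Polynomial.induction_on generalizing x with
  | C c =>
    rw [Polynomial.aeval_C, Polynomial.aeval_C, Algebra.algebraMap_eq_smul_one, ext_smul, ext_one,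
      LinearMap.smul_apply, Module.End.one_apply, ← map_smul]
    rfl
  | add p q hp hq =>
    rw [map_add, map_add, ext_add, LinearMap.add_apply, hp, hq, add_smul, map_add]
  | monomial k c hk =>
    have e3 : ∀ {R : Type} [Ring R] [Algebra ℚ R] (u : R),
        Polynomial.aeval u (Polynomial.C c * Polynomial.X ^ (k + 1)) =
        Polynomial.aeval u (Polynomial.C c * Polynomial.X ^ k) * u := fun u => by
      rw [pow_succ, ← mul_assoc, map_mul, Polynomial.aeval_X]
    rw [e3, e3, Pool.Agent.N208.AD.ext_mul, Module.End.mul_apply, ext_z h w, hk, smul_smul]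

/-- matrices of the real endomorphisms which preserve the image of `φ` -/
theorem mat_of {T : Module.End ℝ (Fin g → ℂ)} (hT : ∀ x, ∃ y, T (φ x) = φ y)
    (hz : T * A.ext z = A.ext z * T) : ∃ m : MN N, ∀ x, T (φ x) = φ (m *ᵥ x) := by
  choose f hf using hT
  have hI : ∀ x, f (Complex.I • x) = Complex.I • f x := by
    intro x
    apply w.inj
    rw [← hf, w.mulI, w.mulI, ← hf, map_smul]
    congr 1
    exact LinearMap.congr_fun hz (φ x)
  have hadd : ∀ x y, f (x + y) = f x + f y := by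
    intro x y
    apply w.inj
    rw [← hf, map_add, map_add, map_add, hf, hf]
  have hr : ∀ (c : ℝ) (x : VN N), f (c • x) = c • f x := by
    intro c x
    apply w.inj
    rw [← hf, map_smul, map_smul, map_smul, hf]
  let F : VN N →ₗ[ℂ] VN N :=
    { toFun := f
      map_add' := hadd
      map_smul' := fun c x => by
        have e : ∀ y : VN N, c • y = c.re • y + c.im • (Complex.I • y) := by
          intro y
          rw [← Complex.coe_smul, ← Complex.coe_smul, smul_smul, ← add_smul, Complex.re_add_im]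
        rw [RingHom.id_apply, e x, e (f x), hadd, hr, hr, hI] }
  refine ⟨LinearMap.toMatrix' F, fun x => ?_⟩
  rw [LinearMap.toMatrix'_mulVec, hf]
  rfl

theorem stab_CB {𝔮 : Submodule ℚ (Module.End ℚ A.H1)} (hq : A.Full 𝔮)
    {X : Module.End ℚ A.H1} (hX : X ∈ CB A) (x : VN N) : ∃ y, A.ext X (φ x) = φ y := by
  have h1 := CB_adjoin hq hX
  clear hX
  induction h1 using Algebra.adjoin_induction generalizing x with
  | mem X hX => exact w.stab X (hq.le hX) x
  | algebraMap c =>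
    refine ⟨(c : ℝ) • x, ?_⟩
    rw [Algebra.algebraMap_eq_smul_one, ext_smul, ext_one, LinearMap.smul_apply,
      Module.End.one_apply, map_smul]
  | add a b _ _ ha hb =>
    obtain ⟨y, e⟩ := ha x
    obtain ⟨y', e'⟩ := hb x
    exact ⟨y + y', by rw [ext_add, LinearMap.add_apply, e, e', map_add]⟩
  | mul a b _ _ ha hb =>
    obtain ⟨y, e⟩ := hb x
    obtain ⟨y', e'⟩ := ha y
    exact ⟨y', by rw [Pool.Agent.N208.AD.ext_mul, Module.End.mul_apply, e, e']⟩

theorem mat_CB {𝔮 : Submodule ℚ (Module.End ℚ A.H1)} (hq : A.Full 𝔮)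
    {X : Module.End ℚ A.H1} (hX : X ∈ CB A) : ∃ m : MN N, ∀ x, A.ext X (φ x) = φ (m *ᵥ x) := by
  refine mat_of h w (stab_CB h w hq hX) ?_
  rw [← Pool.Agent.N208.AD.ext_mul, ← Pool.Agent.N208.AD.ext_mul, hX z h.mem]

theorem mat_unique {m m' : MN N} (hm : ∀ x, φ (m *ᵥ x) = φ (m' *ᵥ x)) : m = m' :=
  Matrix.mulVec_injective (funext fun x => w.inj (hm x))

/-- the matrices of the elements of a full subalgebra -/
theorem mat_q {𝔮 : Submodule ℚ (Module.End ℚ A.H1)} (hq : A.Full 𝔮)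
    {s : Module.End ℚ A.H1} (hs : s ∈ 𝔮) : ∃ m : MN N,
      m ∈ Submodule.span ℂ (rN A (der 𝔮) φ : Set (MN N)) ⊔ Submodule.span ℂ {(1 : MN N)} ∧
      ∀ x, A.ext s (φ x) = φ (m *ᵥ x) := by
  obtain ⟨Z, hZ, d, hd, rfl, hc⟩ := hq.dec hs
  have c1 : ∀ Y ∈ A.NA, Y * Z = Z * Y := hq.comm Z fun Y hY => (hc Y hY).symm
  have c2 : Z ∈ A.EA := fun Y hY => c1 Y (A.LA_le_NA hY)
  obtain ⟨r, hr⟩ := h.gen Z c2 fun Q hQ => A.NA_comm (hq.le hZ) hQ
  obtain ⟨m, hm⟩ := mat_CB h w hq (NA_CB (hq.le (hq.der_le hd)))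
  refine ⟨m + (Polynomial.aeval ((al : ℂ) * Complex.I) r) • 1, Submodule.add_mem_sup
    (Submodule.subset_span ⟨A.ext d, mem_spE hd, hm⟩)
    (Submodule.smul_mem _ _ (Submodule.subset_span rfl)), fun x => ?_⟩
  rw [ext_add, LinearMap.add_apply, ext_gen h w hr, ext_aeval h w, hm, Matrix.add_mulVec,
    Matrix.smul_mulVec, Matrix.one_mulVec, ← map_add, add_comm]

theorem mat_T {𝔮 : Submodule ℚ (Module.End ℚ A.H1)} (hq : A.Full 𝔮)
    {W : Module.End ℚ A.H1} (hW : W ∈ Submodule.span ℚ {T | ∃ (q : Polynomial ℚ)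
      (s : Module.End ℚ A.H1), s ∈ 𝔮 ∧ T = Polynomial.aeval z q * s}) : ∃ m : MN N,
      m ∈ Submodule.span ℂ (rN A (der 𝔮) φ : Set (MN N)) ⊔ Submodule.span ℂ {(1 : MN N)} ∧
      ∀ x, A.ext W (φ x) = φ (m *ᵥ x) := by
  induction hW using Submodule.span_induction with
  | mem W hW =>
    obtain ⟨q, s, hs, rfl⟩ := hW
    obtain ⟨m, hm, e⟩ := mat_q h w hq hs
    refine ⟨(Polynomial.aeval ((al : ℂ) * Complex.I) q) • m, Submodule.smul_mem _ _ hm,
      fun x => ?_⟩
    rw [Pool.Agent.N208.AD.ext_mul, Module.End.mul_apply, e, ext_aeval h w, Matrix.smul_mulVec]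
  | zero =>
    exact ⟨0, Submodule.zero_mem _, fun x => by
      rw [ext_zero, LinearMap.zero_apply, Matrix.zero_mulVec, map_zero]⟩
  | add a b _ _ ha hb =>
    obtain ⟨m, hm, e⟩ := ha
    obtain ⟨m', hm', e'⟩ := hb
    exact ⟨m + m', Submodule.add_mem _ hm hm', fun x => by
      rw [ext_add, LinearMap.add_apply, e, e', Matrix.add_mulVec, map_add]⟩
  | smul c a _ ha =>
    obtain ⟨m, hm, e⟩ := ha
    exact ⟨(((c : ℝ) : ℝ) : ℂ) • m, Submodule.smul_mem _ _ hm, fun x => by
      rw [ext_smul, LinearMap.smul_apply, e, Matrix.smul_mulVec, Complex.coe_smul, map_smul]⟩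

end

theorem main (hRR : G_RR) : G_PD := by
  intro g A z al p h hpd N sg φ w hmix 𝔮 hq
  have hR := hRR g A z al h N sg φ w 𝔮 hq
  -- the commutant
  obtain ⟨C, hC⟩ : ∃ C : Subalgebra ℚ (Module.End ℚ A.H1), ∀ X, X ∈ C ↔ X ∈ CB A := by
    refine ⟨Subalgebra.centralizer ℚ (A.EA : Set (Module.End ℚ A.H1)), fun X => ?_⟩
    rw [Subalgebra.mem_centralizer_iff]
    exact ⟨fun hX P hP => (hX P hP).symm, fun hX P hP => (hX P hP).symm⟩
  have hCs : C.toSubmodule = CB A := by
    ext X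
    rw [Subalgebra.mem_toSubmodule]
    exact hC X
  have hzC : z ∈ C := (hC z).2 h.cen
  -- noncommutativity
  obtain ⟨x, hx, y, hy, hxy⟩ : ∃ x ∈ 𝔮, ∃ y ∈ 𝔮, (x * y - y * x) * z ≠ 0 := by
    by_contra hcon
    push Not at hcon
    have h1 : ∀ d ∈ der 𝔮, d * z = 0 := by
      intro d hd
      unfold der at hd
      induction hd using Submodule.span_induction with
      | mem d hd =>
        obtain ⟨X, hX, Y, hY, rfl⟩ := hd
        exact hcon X hX Y hY
      | zero => rw [zero_mul]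
      | add a b _ _ ha hb => rw [add_mul, ha, hb, add_zero]
      | smul c a _ ha => rw [smul_mul_assoc, ha, smul_zero]
    have h2 : ∀ y ∈ spE A (der 𝔮 : Set (Module.End ℚ A.H1)), ∀ x : VN N, y (φ x) = 0 := by
      intro y hy x
      induction hy using Submodule.span_induction with
      | mem y hy =>
        obtain ⟨d, hd, rfl⟩ := hy
        rw [ext_gen h w (T := 0) (by rw [h1 d hd, zero_mul]) x, ext_zero, LinearMap.zero_apply]
      | zero => rw [LinearMap.zero_apply]
      | add a b _ _ ha hb => rw [LinearMap.add_apply, ha, hb, add_zero]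
      | smul c a _ ha => rw [LinearMap.smul_apply, ha, smul_zero]
    have h3 : ∀ m ∈ rN A (der 𝔮) φ, ∀ x : VN N, m *ᵥ x = 0 := by
      rintro m ⟨y, hy, e⟩ x
      apply w.inj
      rw [← e, h2 y hy, map_zero]
    obtain ⟨⟨i, hi⟩, j, hj⟩ := hmix
    have hij : j ≠ i := by
      rintro rfl
      rw [hi] at hj
      norm_num at hj
    rcases hR.irr (Submodule.span ℂ {(Pi.single i 1 : VN N)}) (fun m hm u _ => by
      rw [h3 m hm]
      exact Submodule.zero_mem _) with h4 | h4
    · rw [Submodule.span_singleton_eq_bot] at h4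
      have h5 := congrFun h4 i
      rw [Pi.single_eq_same] at h5
      exact one_ne_zero h5
    · have h5 : (Pi.single j 1 : VN N) ∈ Submodule.span ℂ {(Pi.single i 1 : VN N)} := by
        rw [h4]
        exact Submodule.mem_top
      obtain ⟨c, hc⟩ := Submodule.mem_span_singleton.1 h5
      have h6 := congrFun hc j
      rw [Pi.smul_apply, Pi.single_eq_of_ne hij, smul_zero, Pi.single_eq_same] at h6
      exact zero_ne_one h6
  -- traces
  have htr : ∀ X ∈ rN A (der 𝔮) φ, X.trace = 0 := by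
    intro X hX
    have h1 := hR.perf hX
    clear hX
    induction h1 using Submodule.span_induction with
    | mem X hX =>
      obtain ⟨a, -, b, -, rfl⟩ := hX
      rw [Matrix.trace_sub, Matrix.trace_mul_comm, sub_self]
    | zero => exact Matrix.trace_zero _ _
    | add a b _ _ ha hb => rw [Matrix.trace_add, ha, hb, add_zero]
    | smul c a _ ha => rw [Matrix.trace_smul, ha, smul_zero]
  -- the monoid
  let MS : Submonoid (MN N) :=
    { carrier := {m | ∃ X ∈ CB A, ∀ x, A.ext X (φ x) = φ (m *ᵥ x)}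
      one_mem' := ⟨1, CB_one, fun x => by
        rw [ext_one, Module.End.one_apply, Matrix.one_mulVec]⟩
      mul_mem' := by
        rintro a b ⟨X, hX, e⟩ ⟨Y, hY, e'⟩
        exact ⟨X * Y, CB_mul hX hY, fun x => by
          rw [Pool.Agent.N208.AD.ext_mul, Module.End.mul_apply, e', e, Matrix.mulVec_mulVec]⟩ }
  refine BG.long_root w.pos w.isSg hR.sk htr MS (fun U hU => ?_) ?_
  · refine w.simple U fun X hX x hx y hxy => ?_
    obtain ⟨m, hm⟩ := mat_CB h w hq (NA_CB hX)
    have h1 := hU m ⟨X, NA_CB hX, hm⟩ x hx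
    rw [hm] at hxy
    rwa [← w.inj hxy]
  · rintro a ⟨X, hX, e⟩ b ⟨Y, hY, e'⟩
    obtain ⟨W, hW, hWe⟩ := BG.rat_part C z hzC (fun X hX => (hC X).1 hX z h.mem)
      (fun X hX => hpd.div X ((hC X).1 hX)) hpd.prime (by rw [hCs]; exact hpd.rank) 𝔮
      (fun X hX => (hC X).2 (NA_CB (hq.le hX))) hq.br hx hy hxy ((hC X).2 hX) ((hC Y).2 hY)
    obtain ⟨m, hm, em⟩ := mat_T h w hq hW
    have h1 : a * b - b * a = m := by
      refine mat_unique h w fun u => ?_
      rw [← em, ← ext_gen h w hWe, ext_sub, Pool.Agent.N208.AD.ext_mul,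
        Pool.Agent.N208.AD.ext_mul, LinearMap.sub_apply, Module.End.mul_apply,
        Module.End.mul_apply, e, e', e, e', ← map_sub, Matrix.mulVec_mulVec,
        Matrix.mulVec_mulVec, ← Matrix.sub_mulVec]
    rw [h1]
    exact hm

end Pool.Agent.N768.BGPD
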