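import Pool.Agent.N659.HB.Stm
import Pool.Agent.W792.WA.G11

/-!
Project HB (helper659), leaf CHK: from the gap of the first level to the estimates for absolutely
continuous spectrum, one law, any kinetic energy.
-/

namespace Pool.Agent.N768.HBChk

open MeasureTheory Filter Pool.Agent.W792.LL Pool.Agent.W792.WA Pool.Agent.W792.WA.Ch
  Pool.Agent.W792.WA.ChK Pool.Agent.N659.HB
open scoped Topology

noncomputable section

/-- Invariant of stage `n`. -/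
def InvK (ν : Measure ℝ) [IsProbabilityMeasure ν] {d : ℕ} (K : C(UnitAddTorus (Fin d), ℝ))
    (ρ : ℕ → Measure ℝ) (σ : ℝ) (n : ℕ) (a : C(ℝ, ℝ) × ℝ) : Prop :=
  GapK ν (ρ n) (kg K a.1) (σ * (1 / 2 + 1 / 2 ^ (n + 1))) ∧ 0 < a.2 ∧ a.2 ≤ 1 ∧
    ∃ q : ℝ, 0 ≤ q ∧ q < 1 ∧ a.2 ≤ (1 - q ^ 2) / 8 ∧ CtrK ν (ρ n) (kg K a.1) q

/-- Relation of two stages. -/
def RelK (ν : Measure ℝ) [IsProbabilityMeasure ν] {d : ℕ} (K : C(UnitAddTorus (Fin d), ℝ))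
    (ψ : C(UnitAddCircle, ℝ)) (l : ℕ → ℝ) (ρ : ℕ → Measure ℝ) (n : ℕ) (a b : C(ℝ, ℝ) × ℝ) : Prop :=
  (∃ M : ℕ, b.1 = nx ψ a.1 (l n) M) ∧ b.2 ≤ a.2 ∧ ∀ z ∈ Zs d, ∀ s s',
    IsFix ν (ρ n) (wz (kg K a.1) z) s → IsFix ν (ρ (n + 1)) (wz (kg K b.1) z) s' →
      ∫ v, ‖Zf (UU (ρ n) (wz (kg K a.1) z) s) (fun x => cay (v x))
        - Zf (UU (ρ (n + 1)) (wz (kg K b.1) z) s') (fun x => cay (v x))‖ ∂(Pn ν (Fin d → ℤ))
        ≤ a.2 / (64 * 8 ^ n)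

theorem step_invK (hU : S_UNI) (hS : S_STEP) {ν : Measure ℝ} [IsProbabilityMeasure ν] {d : ℕ}
    (hd : 0 < d) {K : C(UnitAddTorus (Fin d), ℝ)} {ψ : C(UnitAddCircle, ℝ)} (hψ : IsSemi ψ)
    (hv : 0 < vr ν) {l : ℕ → ℝ}
    (hl : ∀ n, 0 < l n) {ρ : ℕ → Measure ℝ} (hρ1 : ∀ n, IsProbabilityMeasure (ρ n))
    (hρ2 : ∀ n, ρ n = (lev ψ (l n)).conv (ρ (n + 1))) {T : ℕ → ℝ}
    (hρ3 : ∀ n, ρ n (Set.Icc (-(T n)) (T n))ᶜ = 0) (hρ4 : ∀ (n : ℕ) (a b : ℝ), ρ n {a, b} < 1)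
    {σ : ℝ} (hσ : 0 < σ) (n : ℕ) (a : C(ℝ, ℝ) × ℝ) (ha : InvK ν K ρ σ n a) :
    ∃ b, InvK ν K ρ σ (n + 1) b ∧ RelK ν K ψ l ρ n a b := by
  obtain ⟨h1, h2, h2', -⟩ := ha
  have hσn : 0 < σ * (1 / 2 + 1 / 2 ^ (n + 1)) := by positivity
  have hσn' : 0 < σ * (1 / 2 + 1 / 2 ^ (n + 1 + 1)) := by positivity
  have := hρ1 n
  have := hρ1 (n + 1)
  have hex := (hU ν d (ρ n) (T n) _ (kg K a.1) hv (hρ3 n) (hρ4 n) hσn h1).1
  set e : ℝ := min (a.2 / (64 * 8 ^ n)) (σ / 2 ^ (n + 2)) with he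
  have he0 : 0 < e := lt_min (by positivity) (by positivity)
  have h1' : ∀ z ∈ Zs d, ∀ s, IsFix ν ((lev ψ (l n)).conv (ρ (n + 1))) (wz (kg K a.1) z) s →
      ‖s‖ ≤ 1 - σ * (1 / 2 + 1 / 2 ^ (n + 1)) := by
    rw [← hρ2 n]; exact h1
  obtain ⟨M, hM⟩ := hS ν d ψ (ρ (n + 1)) (T (n + 1)) _ (l n) (kg K a.1) hd hψ hv (hρ3 (n + 1))
    (hρ4 (n + 1)) (hl n) hσn h1' e he0
  have hM' := hM M le_rfl
  rw [← hρ2 n, ← kg_nx] at hM'
  have hgap : GapK ν (ρ (n + 1)) (kg K (nx ψ a.1 (l n) M)) (σ * (1 / 2 + 1 / 2 ^ (n + 1 + 1))) := by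
    intro z hz s' hs'
    obtain ⟨s, hs, -⟩ := hex z hz
    have h3 := (hM' z hz s s' hs hs').1
    have h4 := h1 z hz s hs
    have h5 : ‖s'‖ ≤ ‖s‖ + ‖s - s'‖ := by
      have := norm_sub_le s (s - s')
      rwa [sub_sub_cancel] at this
    have h6 : e ≤ σ / 2 ^ (n + 2) := min_le_right _ _
    have h7 : σ * (1 / 2 + 1 / 2 ^ (n + 1)) = σ * (1 / 2 + 1 / 2 ^ (n + 1 + 1)) + σ / 2 ^ (n + 2) := by
      field_simp
      ring
    linarith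
  obtain ⟨q, hq0, hq1, hq2⟩ := (hU ν d (ρ (n + 1)) (T (n + 1)) _ (kg K (nx ψ a.1 (l n) M)) hv
    (hρ3 (n + 1)) (hρ4 (n + 1)) hσn' hgap).2.1
  have hq3 : 0 < (1 - q ^ 2) / 8 := by
    have : q ^ 2 < 1 := by nlinarith
    linarith
  refine ⟨(nx ψ a.1 (l n) M, min a.2 ((1 - q ^ 2) / 8)), ⟨hgap, lt_min h2 hq3,
    (min_le_left _ _).trans h2', q, hq0, hq1, min_le_right _ _, hq2⟩, ⟨M, rfl⟩, min_le_left _ _, ?_⟩
  intro z hz s s' hs hs'
  exact (hM' z hz s s' hs hs').2.trans (min_le_left _ _)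

/-- CHK -/
theorem main (hX : S_CX) (hUU : S_UUC) (hL : S_SCL) (hZ : S_ZF) (hCay : S_CAY)
    (hM : S_MZP) (hU : S_UNI) (hS : S_STEP) (hF : S_FUT) : S_CHK := by
  intro ψ hψ d ν hν K r σ hd hv hr hσ hbase0
  set l : ℕ → ℝ := fun n => r * (1 / 16) ^ n with hl
  set T : ℕ → ℝ := fun n => 2 * r * (1 / 16) ^ n with hT
  have hl0 : ∀ n, 0 < l n := fun n => by simp only [hl]; positivity
  have hsum : Summable l :=
    (summable_geometric_of_lt_one (by norm_num) (by norm_num)).mul_left r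
  obtain ⟨ρ, hρ1, hρ2, hρ3, hρ4⟩ := hF ψ hψ l hl0 hsum
  have htail : ∀ n, ∑' j, l (n + j) ≤ T n := by
    intro n
    have h1 : ∀ j, l (n + j) = (r * (1 / 16) ^ n) * (1 / 16) ^ j := by
      intro j; simp only [hl]; rw [pow_add]; ring
    simp only [h1]
    rw [tsum_mul_left, tsum_geometric_of_lt_one (by norm_num) (by norm_num)]
    have h2 : 0 < r * (1 / 16 : ℝ) ^ n := by positivity
    simp only [hT]
    have h3 : ((1 : ℝ) - 1 / 16)⁻¹ ≤ 2 := by norm_num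
    calc r * (1 / 16 : ℝ) ^ n * (1 - 1 / 16)⁻¹ ≤ r * (1 / 16 : ℝ) ^ n * 2 := by gcongr
      _ = 2 * r * (1 / 16) ^ n := by ring
  have hρ3' : ∀ n, ρ n (Set.Icc (-(T n)) (T n))ᶜ = 0 := by
    intro n
    refine measure_mono_null (Set.compl_subset_compl.2 ?_) (hρ3 n)
    have := htail n
    exact Set.Icc_subset_Icc (by linarith) this
  have hTp : ∀ n, 0 ≤ T n := fun n => by simp only [hT]; positivity
  have hTT : ∀ n, l n + T (n + 1) ≤ T n := by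
    intro n
    simp only [hT, hl]
    rw [pow_succ]
    have : 0 < r * (1 / 16 : ℝ) ^ n := by positivity
    linarith
  have hbase : GapK ν (ρ 0) (kg K 0) σ := by
    intro z hz s hs
    rw [kg_zero] at hs
    have h0 : l 0 = r := by simp [hl]
    have := hρ1 (0 + 1)
    rw [hρ2 0, h0] at hs
    refine hbase0 (ρ (0 + 1)) ?_ z hz s hs
    have h1 : T (0 + 1) = r / 8 := by simp only [hT]; ring
    have := hρ3' (0 + 1)
    rwa [h1] at this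
  obtain ⟨x, hx⟩ := exists_seq (α := C(ℝ, ℝ) × ℝ)
    (fun n a => InvK ν K ρ σ n a ∧ (n = 0 → a.1 = 0))
    (fun n a b => RelK ν K ψ l ρ n a b) (by
      have := hρ1 0
      obtain ⟨q, hq0, hq1, hq2⟩ := (hU ν d (ρ 0) (T 0) σ (kg K 0) hv (hρ3' 0)
        (hρ4 0) hσ hbase).2.1
      have hq3 : 0 < (1 - q ^ 2) / 8 := by
        have : q ^ 2 < 1 := by nlinarith
        linarith
      have hq4 : (1 - q ^ 2) / 8 ≤ 1 := by nlinarith
      refine ⟨(0, (1 - q ^ 2) / 8), ⟨?_, hq3, hq4, q, hq0, hq1, le_rfl, hq2⟩, fun _ => rfl⟩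
      have e : σ * (1 / 2 + 1 / 2 ^ (0 + 1)) = σ := by ring
      rw [e]
      exact hbase) (by
      intro n a ha
      obtain ⟨b, hb1, hb2⟩ := step_invK hU hS hd hψ hv hl0 hρ1 hρ2 hρ3' hρ4 hσ n a ha.1
      exact ⟨b, ⟨hb1, fun h => absurd h (Nat.succ_ne_zero n)⟩, hb2⟩)
  have hMe : ∀ n, ∃ M : ℕ, (x (n + 1)).1 = nx ψ (x n).1 (l n) M := fun n => (hx n).2.1
  choose M hMe using hMe
  have hq : ∀ n, ∃ q : ℝ, 0 ≤ q ∧ q < 1 ∧ (x n).2 ≤ (1 - q ^ 2) / 8 ∧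
      CtrK ν (ρ n) (kg K (x n).1) q := fun n => (hx n).1.1.2.2.2
  choose q hq0 hq1 hq2 hq3 using hq
  let L : LvK ψ := {
    l := l, T := T, f := fun n => (x n).1, M := M
    hψ := hψ.bound
    hl := hl0
    hT := hTT
    hTp := hTp
    f0 := (hx 0).1.2 rfl
    fs := hMe }
  have hT0 : T 0 = 2 * r := by simp [hT]
  have hTt : Tendsto T atTop (𝓝 0) := by
    have h1 := (tendsto_pow_atTop_nhds_zero_of_lt_one (by norm_num : (0 : ℝ) ≤ 1 / 16)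
      (by norm_num : (1 : ℝ) / 16 < 1)).const_mul (2 * r)
    rw [mul_zero] at h1
    exact h1
  have hsumle : ∑' j, L.l j ≤ 2 * r := by
    refine Real.tsum_le_of_sum_range_le (fun n => (L.hl n).le) fun m => ?_
    have h1 := L.sum_l 0 m
    have h2 := L.hTp (0 + m)
    simp only [zero_add] at h1 h2
    have h3 : L.T 0 = 2 * r := hT0
    linarith
  refine ⟨L.fI, ⟨L.l, L.M, fun j => (L.hl j).le, L.summable_l, hsumle, fun t => rfl⟩, ?_⟩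
  let E : CEK ν K := {
    ρ := ρ
    T := T
    σ := σ / 2
    f := fun n => (x n).1
    fI := L.fI
    B := T 0
    p := fun n => (x n).2
    q := q
    hv := hv
    T_anti := L.T_anti
    hTp := hTp
    hT0 := hTt
    hρ1 := hρ1
    hρ3 := hρ3'
    hρ4 := hρ4
    hσ := by positivity
    gap := by
      intro n z hz s hs
      have h1 := (hx n).1.1.1 z hz s hs
      have h2 : σ / 2 ≤ σ * (1 / 2 + 1 / 2 ^ (n + 1)) := by
        have : 0 < σ * (1 / 2 ^ (n + 1)) := by positivity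
        linarith
      linarith
    hp := fun n => (hx n).1.1.2.1
    anti := fun n => (hx n).2.2.1
    hq0 := hq0
    hq1 := hq1
    hq2 := hq2
    ctr := hq3
    fI_diff := fun n t => L.fI_diff n t
    fI_id := L.fI_id
    f_id := fun n t => L.f_id n t
    rel := fun n => (hx n).2.2.2 }
  exact E.concl hX hUU hL hZ hCay hM hU

end

end Pool.Agent.N768.HBChk
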