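import Pool.Agent.N81.Cay.Stm

/-!
Project CAY (helper81), leaf D: the closed walk from cycles and a spanning matching.
-/

set_option autoImplicit false

namespace Pool.Agent.N768.CayD

open Pool.Agent.N81.Cay
open Equiv.Perm (SameCycle)

universe u

section conn
variable {V : Type u} (r : Setoid V)

theorem conn_le {F : Finset (V × V)} {t : Setoid V} (h1 : r ≤ t) (h2 : ∀ e ∈ F, t e.1 e.2) :
    conn r F ≤ t := by
  unfold conn
  refine sup_le h1 ?_
  intro a b hab
  have h3 : Relation.EqvGen (fun a b => (a, b) ∈ F) a b := hab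
  induction h3 with
  | rel a b h => exact h2 (a, b) h
  | refl a => exact t.refl' a
  | symm a b _ ih => exact t.symm' (ih ‹_›)
  | trans a b c _ _ ih1 ih2 => exact t.trans' (ih1 ‹_›) (ih2 ‹_›)

theorem r_le_conn (F : Finset (V × V)) : r ≤ conn r F := le_sup_left

theorem conn_of_mem {F : Finset (V × V)} {e : V × V} (h : e ∈ F) : conn r F e.1 e.2 := by
  have h1 : Relation.EqvGen.setoid (fun a b => (a, b) ∈ F) ≤ conn r F := le_sup_right
  exact h1 (Relation.EqvGen.rel e.1 e.2 h)

theorem conn_mono {F F' : Finset (V × V)} (h : F ⊆ F') : conn r F ≤ conn r F' :=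
  conn_le r (r_le_conn r F') (fun _ he => conn_of_mem r (h he))

theorem conn_empty : conn r ∅ = r := by
  apply le_antisymm
  · exact conn_le r le_rfl (fun e he => absurd he (Finset.notMem_empty e))
  · exact r_le_conn r ∅

/-- adding an edge -/
def addE (c : Setoid V) (u v : V) : Setoid V where
  r a b := c a b ∨ (c a u ∧ c v b) ∨ (c a v ∧ c u b)
  iseqv := by
    refine ⟨fun a => Or.inl (c.refl' a), ?_, ?_⟩
    · rintro a b (h | ⟨h1, h2⟩ | ⟨h1, h2⟩)
      · exact Or.inl (c.symm' h)
      · exact Or.inr (Or.inr ⟨c.symm' h2, c.symm' h1⟩)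
      · exact Or.inr (Or.inl ⟨c.symm' h2, c.symm' h1⟩)
    · rintro a b d (h | ⟨h1, h2⟩ | ⟨h1, h2⟩) (k | ⟨k1, k2⟩ | ⟨k1, k2⟩)
      · exact Or.inl (c.trans' h k)
      · exact Or.inr (Or.inl ⟨c.trans' h k1, k2⟩)
      · exact Or.inr (Or.inr ⟨c.trans' h k1, k2⟩)
      · exact Or.inr (Or.inl ⟨h1, c.trans' h2 k⟩)
      · exact Or.inr (Or.inl ⟨h1, k2⟩)
      · exact Or.inl (c.trans' h1 k2)
      · exact Or.inr (Or.inr ⟨h1, c.trans' h2 k⟩)
      · exact Or.inl (c.trans' h1 k2)
      · exact Or.inr (Or.inr ⟨h1, k2⟩)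

variable [DecidableEq V]

theorem conn_insert (F : Finset (V × V)) (u v a b : V) :
    conn r (insert (u, v) F) a b ↔
      conn r F a b ∨ (conn r F a u ∧ conn r F v b) ∨ (conn r F a v ∧ conn r F u b) := by
  constructor
  · intro h
    have h1 : conn r (insert (u, v) F) ≤ addE (conn r F) u v := by
      apply conn_le
      · intro a b hab
        exact Or.inl (r_le_conn r F hab)
      · intro e he
        rcases Finset.mem_insert.1 he with rfl | he
        · exact Or.inr (Or.inl ⟨(conn r F).refl' _, (conn r F).refl' _⟩)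
        · exact Or.inl (conn_of_mem r he)
    exact h1 h
  · have hm : conn r F ≤ conn r (insert (u, v) F) := conn_mono r (Finset.subset_insert _ _)
    have huv : conn r (insert (u, v) F) u v :=
      conn_of_mem r (Finset.mem_insert_self (u, v) F)
    rintro (h | ⟨h1, h2⟩ | ⟨h1, h2⟩)
    · exact hm h
    · exact (conn r _).trans' (hm h1) ((conn r _).trans' huv (hm h2))
    · exact (conn r _).trans' (hm h1) ((conn r _).trans' ((conn r _).symm' huv) (hm h2))

end conn

section two
variable {V : Type u} [Fintype V] [DecidableEq V] (U : Finset V)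

/-- two copies of the elements of `U`, one copy of the others -/
def SS : Finset (V × Bool) := Finset.univ ×ˢ {false} ∪ U ×ˢ {true}

theorem mem_SS {p : V × Bool} : p ∈ SS U ↔ p.2 = false ∨ p.1 ∈ U := by
  unfold SS
  rw [Finset.mem_union, Finset.mem_product, Finset.mem_product, Finset.mem_singleton,
    Finset.mem_singleton]
  constructor
  · rintro (⟨-, h⟩ | ⟨h, -⟩)
    · exact Or.inl h
    · exact Or.inr h
  · rintro (h | h)
    · exact Or.inl ⟨Finset.mem_univ _, h⟩
    · cases h2 : p.2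
      · exact Or.inl ⟨Finset.mem_univ _, rfl⟩
      · exact Or.inr ⟨h, rfl⟩

theorem mem_true {x : V} (h : (x, true) ∈ SS U) : x ∈ U := by
  rcases (mem_SS U).1 h with h1 | h1
  · exact Bool.noConfusion (show true = false from h1)
  · exact h1

theorem card_SS : (SS U).card = Fintype.card V + U.card := by
  unfold SS
  rw [Finset.card_union_of_disjoint, Finset.card_product, Finset.card_product,
    Finset.card_singleton, Finset.card_singleton, mul_one, mul_one, Finset.card_univ]
  rw [Finset.disjoint_left]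
  rintro p hp hq
  rw [Finset.mem_product, Finset.mem_singleton] at hp hq
  rw [hp.2] at hq
  exact absurd hq.2 (by decide)

variable (σ : Equiv.Perm V)

/-- the step -/
def stp (p : SS U) : SS U :=
  if h : p.1.2 = false ∧ p.1.1 ∈ U then ⟨(p.1.1, true), (mem_SS U).2 (Or.inr h.2)⟩
  else ⟨(σ p.1.1, false), (mem_SS U).2 (Or.inl rfl)⟩

theorem stp_t {x : V} (h : (x, false) ∈ SS U) (hx : x ∈ U) :
    (stp U σ ⟨(x, false), h⟩).1 = (x, true) := by
  unfold stp
  rw [dif_pos ⟨rfl, hx⟩]

theorem stp_f {x : V} (h : (x, false) ∈ SS U) (hx : x ∉ U) :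
    (stp U σ ⟨(x, false), h⟩).1 = (σ x, false) := by
  unfold stp
  rw [dif_neg (fun h => hx h.2)]

theorem stp_2 {x : V} (h : (x, true) ∈ SS U) :
    (stp U σ ⟨(x, true), h⟩).1 = (σ x, false) := by
  unfold stp
  rw [dif_neg (fun h => Bool.noConfusion (show true = false from h.1))]

theorem stp_inj : Function.Injective (stp U σ) := by
  rintro ⟨⟨x, i⟩, hx⟩ ⟨⟨y, j⟩, hy⟩ h
  have h1 := congrArg Subtype.val h
  cases i <;> cases j
  · by_cases hxU : x ∈ U <;> by_cases hyU : y ∈ U
    · rw [stp_t U σ hx hxU, stp_t U σ hy hyU, Prod.mk.injEq] at h1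
      ext1
      exact Prod.ext h1.1 rfl
    · rw [stp_t U σ hx hxU, stp_f U σ hy hyU, Prod.mk.injEq] at h1
      exact absurd h1.2 (by decide)
    · rw [stp_f U σ hx hxU, stp_t U σ hy hyU, Prod.mk.injEq] at h1
      exact absurd h1.2 (by decide)
    · rw [stp_f U σ hx hxU, stp_f U σ hy hyU, Prod.mk.injEq] at h1
      ext1
      exact Prod.ext (σ.injective h1.1) rfl
  · have hyU : y ∈ U := by
      exact mem_true U hy
    by_cases hxU : x ∈ U
    · rw [stp_t U σ hx hxU, stp_2 U σ hy, Prod.mk.injEq] at h1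
      exact absurd h1.2 (by decide)
    · rw [stp_f U σ hx hxU, stp_2 U σ hy, Prod.mk.injEq] at h1
      have := σ.injective h1.1
      exact absurd (this ▸ hyU) hxU
  · have hxU : x ∈ U := by
      exact mem_true U hx
    by_cases hyU : y ∈ U
    · rw [stp_t U σ hy hyU, stp_2 U σ hx, Prod.mk.injEq] at h1
      exact absurd h1.2 (by decide)
    · rw [stp_f U σ hy hyU, stp_2 U σ hx, Prod.mk.injEq] at h1
      have := σ.injective h1.1
      exact absurd (this ▸ hxU) hyU
  · rw [stp_2 U σ hx, stp_2 U σ hy, Prod.mk.injEq] at h1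
    ext1
    exact Prod.ext (σ.injective h1.1) rfl

/-- the permutation of the copies -/
noncomputable def sg : Equiv.Perm (SS U) :=
  Equiv.ofBijective (stp U σ) (Finite.injective_iff_bijective.1 (stp_inj U σ))

theorem sg_apply (p : SS U) : sg U σ p = stp U σ p := rfl

theorem sg_same_fst (p : SS U) : σ.SameCycle p.1.1 (sg U σ p).1.1 := by
  rw [sg_apply]
  obtain ⟨⟨x, i⟩, hx⟩ := p
  cases i
  · by_cases hxU : x ∈ U
    · rw [stp_t U σ hx hxU]
    · rw [stp_f U σ hx hxU]
      exact ⟨1, by simp⟩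
  · rw [stp_2 U σ hx]
    exact ⟨1, by simp⟩

theorem sg_same_copies {x : V} (hx : (x, true) ∈ SS U) (hx' : (x, false) ∈ SS U) :
    (sg U σ).SameCycle ⟨(x, false), hx'⟩ ⟨(x, true), hx⟩ := by
  refine ⟨1, ?_⟩
  rw [zpow_one, sg_apply]
  have hxU : x ∈ U := by
    exact mem_true U hx
  exact Subtype.ext (stp_t U σ hx' hxU)

theorem mem_false (x : V) : (x, false) ∈ SS U := (mem_SS U).2 (Or.inl rfl)

theorem sg_same_step (x : V) :
    (sg U σ).SameCycle ⟨(x, false), mem_false U x⟩ ⟨(σ x, false), mem_false U (σ x)⟩ := by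
  by_cases hxU : x ∈ U
  · have h1 : (x, true) ∈ SS U := (mem_SS U).2 (Or.inr hxU)
    refine (sg_same_copies U σ h1 (mem_false U x)).trans ⟨1, ?_⟩
    rw [zpow_one, sg_apply]
    exact Subtype.ext (stp_2 U σ h1)
  · refine ⟨1, ?_⟩
    rw [zpow_one, sg_apply]
    exact Subtype.ext (stp_f U σ (mem_false U x) hxU)

theorem sg_same_base (p : SS U) : (sg U σ).SameCycle p ⟨(p.1.1, false), mem_false U p.1.1⟩ := by
  obtain ⟨⟨x, i⟩, hx⟩ := p
  cases i
  · exact SameCycle.refl _ _
  · exact (sg_same_copies U σ hx (mem_false U x)).symm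

theorem sg_sameCycle (p q : SS U) : (sg U σ).SameCycle p q ↔ σ.SameCycle p.1.1 q.1.1 := by
  constructor
  · intro h
    obtain ⟨n, hn⟩ := h.exists_nat_pow_eq
    rw [← hn]
    clear hn h q
    induction n with
    | zero => exact SameCycle.refl _ _
    | succ n ih =>
      refine ih.trans ?_
      rw [pow_succ', Equiv.Perm.mul_apply]
      exact sg_same_fst U σ _
  · intro h
    obtain ⟨n, hn⟩ := h.exists_nat_pow_eq
    have key : ∀ (n : ℕ) (x : V), (sg U σ).SameCycle ⟨(x, false), mem_false U x⟩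
        ⟨((σ ^ n) x, false), mem_false U ((σ ^ n) x)⟩ := by
      intro n x
      induction n with
      | zero => exact SameCycle.refl _ _
      | succ n ih =>
        refine ih.trans ?_
        have h1 := sg_same_step U σ ((σ ^ n) x)
        have h2 : (σ ^ (n + 1)) x = σ ((σ ^ n) x) := by
          rw [pow_succ', Equiv.Perm.mul_apply]
        simp only [h2]
        exact h1
    have h2 := key n p.1.1
    simp only [hn] at h2
    exact (sg_same_base U σ p).trans (h2.trans (sg_same_base U σ q).symm)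

theorem sg_ne (hσ : ∀ x, σ (σ x) ≠ x) (p : SS U) : sg U σ (sg U σ p) ≠ p := by
  have hσ1 : ∀ x, σ x ≠ x := fun x h => hσ x (by rw [h, h])
  have hval : ∀ q : SS U, (sg U σ q).1 = (stp U σ q).1 := fun q => rfl
  intro h
  have h0 := congrArg Subtype.val h
  obtain ⟨⟨x, i⟩, hx⟩ := p
  cases i
  · by_cases hxU : x ∈ U
    · have h1 : sg U σ ⟨(x, false), hx⟩ = ⟨(x, true), (mem_SS U).2 (Or.inr hxU)⟩ :=
        Subtype.ext (stp_t U σ hx hxU)
      rw [h1, hval, stp_2 U σ, Prod.mk.injEq] at h0
      exact hσ1 x h0.1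
    · have h1 : sg U σ ⟨(x, false), hx⟩ = ⟨(σ x, false), mem_false U _⟩ :=
        Subtype.ext (stp_f U σ hx hxU)
      rw [h1, hval] at h0
      by_cases hyU : σ x ∈ U
      · rw [stp_t U σ _ hyU, Prod.mk.injEq] at h0
        exact absurd h0.2 (by decide)
      · rw [stp_f U σ _ hyU, Prod.mk.injEq] at h0
        exact hσ x h0.1
  · have h1 : sg U σ ⟨(x, true), hx⟩ = ⟨(σ x, false), mem_false U _⟩ :=
      Subtype.ext (stp_2 U σ hx)
    rw [h1, hval] at h0
    by_cases hyU : σ x ∈ U
    · rw [stp_t U σ _ hyU, Prod.mk.injEq] at h0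
      exact hσ1 x h0.1
    · rw [stp_f U σ _ hyU, Prod.mk.injEq] at h0
      exact absurd h0.2 (by decide)

end two

section main
variable {V : Type u} [Fintype V] [DecidableEq V]

/-- ends of the pairs -/
def ends (M : Finset (V × V)) : Finset V := M.biUnion (fun e => {e.1, e.2})

omit [Fintype V] in
theorem mem_ends {M : Finset (V × V)} {x : V} : x ∈ ends M ↔ ∃ e ∈ M, On x e := by
  unfold ends On
  simp only [Finset.mem_biUnion, Finset.mem_insert, Finset.mem_singleton]
  constructor
  · rintro ⟨e, he, h | h⟩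
    · exact ⟨e, he, Or.inl h.symm⟩
    · exact ⟨e, he, Or.inr h.symm⟩
  · rintro ⟨e, he, h | h⟩
    · exact ⟨e, he, Or.inl h.symm⟩
    · exact ⟨e, he, Or.inr h.symm⟩

omit [Fintype V] in
theorem card_ends {R : V → V → Prop} {M : Finset (V × V)} (h : IsMat R M) :
    (ends M).card = 2 * M.card := by
  unfold ends
  rw [Finset.card_biUnion]
  · rw [Finset.sum_congr rfl (fun e he => Finset.card_pair (h.ne e he)), Finset.sum_const,
      smul_eq_mul, mul_comm]
  · intro e he f hf hef
    rw [Function.onFun, Finset.disjoint_left]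
    intro x hx hx'
    rw [Finset.mem_insert, Finset.mem_singleton] at hx hx'
    apply hef
    refine h.disj e he f hf x ?_ ?_
    · rcases hx with h | h
      · exact Or.inl h.symm
      · exact Or.inr h.symm
    · rcases hx' with h | h
      · exact Or.inl h.symm
      · exact Or.inr h.symm

/-- the invariant -/
structure Inv (R : V → V → Prop) (r : Setoid V) (U : Finset V) (F : Finset (V × V))
    (ρ : Equiv.Perm (SS U)) : Prop where
  a : ∀ p : SS U, R p.1.1 (ρ p).1.1 ∨ (p.1.1 = (ρ p).1.1 ∧ ∀ e ∈ F, ¬ On p.1.1 e)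
  b : ∀ (x : V) (hx : (x, true) ∈ SS U), (∀ e ∈ F, ¬ On x e) →
    Edge ρ ⟨(x, false), mem_false U x⟩ ⟨(x, true), hx⟩
  c : ∀ p q : SS U, ρ.SameCycle p q ↔ conn r F p.1.1 q.1.1
  d : ∀ p, ρ (ρ p) ≠ p

theorem two_copies {U : Finset V} {x y : SS U} {w : V} (hw : (w, true) ∈ SS U) (hx : x.1.1 = w)
    (hy : y.1.1 = w) (hne : x ≠ y) :
    s(x, y) = s((⟨(w, false), mem_false U w⟩ : SS U), (⟨(w, true), hw⟩ : SS U)) := by
  obtain ⟨⟨x1, i⟩, hx'⟩ := x
  obtain ⟨⟨y1, j⟩, hy'⟩ := y
  simp only at hx hy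
  subst hx
  subst hy
  cases i <;> cases j
  · exact absurd rfl hne
  · rfl
  · exact Sym2.eq_swap
  · exact absurd rfl hne

theorem inv_empty (R : V → V → Prop) (σ : Equiv.Perm V) (hσ1 : ∀ x, R x (σ x))
    (hσ2 : ∀ x, σ (σ x) ≠ x) (r : Setoid V) (hr : ∀ x y, r x y ↔ σ.SameCycle x y) (U : Finset V) :
    Inv R r U ∅ (sg U σ) := by
  refine ⟨?_, ?_, ?_, sg_ne U σ hσ2⟩
  · rintro ⟨⟨x, i⟩, hx⟩
    have hval : ∀ q : SS U, (sg U σ q).1 = (stp U σ q).1 := fun q => rfl
    rw [hval]
    cases i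
    · by_cases hxU : x ∈ U
      · right
        rw [stp_t U σ hx hxU]
        exact ⟨rfl, fun e he => absurd he (Finset.notMem_empty e)⟩
      · left
        rw [stp_f U σ hx hxU]
        exact hσ1 x
    · left
      rw [stp_2 U σ hx]
      exact hσ1 x
  · intro x hx _
    left
    have hxU : x ∈ U := by
      exact mem_true U hx
    exact Subtype.ext (stp_t U σ (mem_false U x) hxU)
  · intro p q
    rw [sg_sameCycle, conn_empty, hr]

theorem inv_insert (hmerge : S_merge.{u}) {R : V → V → Prop} (hR : ∀ x y, R x y → R y x)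
    {r : Setoid V} {U : Finset V} {F : Finset (V × V)} {ρ : Equiv.Perm (SS U)} (I : Inv R r U F ρ)
    {u v : V} (hu : (u, true) ∈ SS U) (hv : (v, true) ∈ SS U) (huF : ∀ e ∈ F, ¬ On u e)
    (hvF : ∀ e ∈ F, ¬ On v e) (huv : R u v) (hns : ¬ conn r F u v) :
    ∃ ρ', Inv R r U (insert (u, v) F) ρ' := by
  obtain ⟨ρ', h1, h2, h3, h4⟩ := hmerge (fun a b : SS U => R a.1.1 b.1.1) (fun a b h => hR _ _ h)
    ρ I.d ⟨(u, false), mem_false U u⟩ ⟨(u, true), hu⟩ ⟨(v, false), mem_false U v⟩ ⟨(v, true), hv⟩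
    (I.b u hu huF) (I.b v hv hvF) (fun h => hns ((I.c _ _).1 h)) huv huv
  refine ⟨ρ', ?_, ?_, ?_, h1⟩
  · intro x
    rcases h2 x with h | ⟨hE, hs1, hs2⟩
    · exact Or.inl h
    · obtain ⟨y, hy⟩ : ∃ y, y = ρ' x := ⟨_, rfl⟩
      rw [← hy] at hE hs1 hs2 ⊢
      have hcl : R x.1.1 y.1.1 ∨ (x.1.1 = y.1.1 ∧ ∀ e ∈ F, ¬ On x.1.1 e) := by
        rcases hE with h | h
        · have := I.a x
          rw [h] at this
          exact this
        · have := I.a y
          rw [h] at this
          rcases this with h5 | ⟨h5, h6⟩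
          · exact Or.inl (hR _ _ h5)
          · refine Or.inr ⟨h5.symm, ?_⟩
            rw [← h5]
            exact h6
      have hxy : x ≠ y := by
        rintro rfl
        rcases hE with h | h
        · exact I.d x (by rw [h, h])
        · exact I.d x (by rw [h, h])
      rcases hcl with h | ⟨h5, h6⟩
      · exact Or.inl h
      · refine Or.inr ⟨h5, ?_⟩
        intro e he
        rcases Finset.mem_insert.1 he with rfl | he
        · rintro (h7 | h7)
          · exact hs1 (two_copies hu h7.symm (h5.symm.trans h7.symm) hxy)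
          · exact hs2 (two_copies hv h7.symm (h5.symm.trans h7.symm) hxy)
        · exact h6 e he
  · intro x hx hxF
    have hxuv := hxF (u, v) (Finset.mem_insert_self _ _)
    apply h3 _ _ (I.b x hx (fun e he => hxF e (Finset.mem_insert_of_mem he)))
    · intro h
      rw [Sym2.eq_iff] at h
      apply hxuv
      left
      rcases h with ⟨h, -⟩ | ⟨h, -⟩
      · have := congrArg (fun p : SS U => p.1.1) h
        exact this.symm
      · have := congrArg (fun p : SS U => p.1.1) h
        exact this.symm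
    · intro h
      rw [Sym2.eq_iff] at h
      apply hxuv
      right
      rcases h with ⟨h, -⟩ | ⟨h, -⟩
      · have := congrArg (fun p : SS U => p.1.1) h
        exact this.symm
      · have := congrArg (fun p : SS U => p.1.1) h
        exact this.symm
  · intro p q
    rw [h4, I.c, I.c, I.c, I.c, I.c, conn_insert]

theorem inv_exists (hmerge : S_merge.{u}) {R : V → V → Prop} (hR : ∀ x y, R x y → R y x)
    (σ : Equiv.Perm V) (hσ1 : ∀ x, R x (σ x)) (hσ2 : ∀ x, σ (σ x) ≠ x) (r : Setoid V)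
    (hr : ∀ x y, r x y ↔ σ.SameCycle x y) (M : Finset (V × V)) (hM : Spans r R M) :
    ∀ F : Finset (V × V), F ⊆ M → ∃ ρ, Inv R r (ends M) F ρ := by
  intro F
  induction F using Finset.induction_on with
  | empty =>
    intro _
    exact ⟨_, inv_empty R σ hσ1 hσ2 r hr (ends M)⟩
  | insert e F heF ih =>
    intro hF
    have heM : e ∈ M := hF (Finset.mem_insert_self _ _)
    have hFM : F ⊆ M := fun x hx => hF (Finset.mem_insert_of_mem hx)
    obtain ⟨ρ, I⟩ := ih hFM
    obtain ⟨u, v⟩ := e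
    have hun : ∀ w, On w (u, v) → ∀ f ∈ F, ¬ On w f := by
      intro w hw f hf hwf
      have := hM.mat.disj (u, v) heM f (hFM hf) w hw hwf
      rw [this] at heF
      exact heF hf
    refine inv_insert hmerge hR I ?_ ?_ (hun u (Or.inl rfl)) (hun v (Or.inr rfl))
      (hM.mat.edge _ heM) ?_
    · exact (mem_SS _).2 (Or.inr (mem_ends.2 ⟨_, heM, Or.inl rfl⟩))
    · exact (mem_SS _).2 (Or.inr (mem_ends.2 ⟨_, heM, Or.inr rfl⟩))
    · intro h
      apply hM.forest _ heM
      have hsub : F ⊆ M.erase (u, v) := by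
        intro x hx
        rw [Finset.mem_erase]
        refine ⟨?_, hFM hx⟩
        rintro rfl
        exact heF hx
      exact conn_mono r hsub h

end main

/-- the closed walk -/
theorem walk (hmerge : S_merge.{u}) : S_walk.{u} := by
  intro V _ _ R hR σ hσ1 hσ2 r hr M hM hne
  obtain ⟨U, hU⟩ : ∃ U, U = ends M := ⟨_, rfl⟩
  obtain ⟨ρ, I⟩ : ∃ ρ, Inv R r U M ρ := by
    rw [hU]
    exact inv_exists hmerge hR σ hσ1 hσ2 r hr M hM M le_rfl
  have hstep : ∀ p : SS U, R p.1.1 (ρ p).1.1 := by
    intro p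
    rcases I.a p with h | ⟨h1, h2⟩
    · exact h
    · exfalso
      have hpne : p ≠ ρ p := fun h => I.d p (by rw [← h, ← h])
      have hpU : p.1.1 ∈ U := by
        by_contra hpU
        apply hpne
        have e1 : p.1.2 = false := ((mem_SS U).1 p.2).resolve_right hpU
        have e2 : (ρ p).1.2 = false :=
          ((mem_SS U).1 (ρ p).2).resolve_right (by rw [← h1]; exact hpU)
        exact Subtype.ext (Prod.ext h1 (e1.trans e2.symm))
      obtain ⟨e, he, hon⟩ := mem_ends.1 (show p.1.1 ∈ ends M from hU ▸ hpU)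
      exact h2 e he hon
  have hcyc : ∀ p q : SS U, ρ.SameCycle p q := fun p q => (I.c p q).2 (hM.top _ _)
  have hN : (Finset.univ : Finset (SS U)).card = Fintype.card V + 2 * M.card := by
    rw [Finset.card_univ, Fintype.card_coe, card_SS, hU, card_ends hM.mat]
  have hon : ρ.IsCycleOn ((Finset.univ : Finset (SS U)) : Set (SS U)) := by
    refine ⟨?_, fun p _ q _ => hcyc p q⟩
    rw [Finset.coe_univ]
    exact Set.bijOn_univ.2 ρ.bijective
  obtain ⟨v0⟩ := hne
  set p0 : SS U := ⟨(v0, false), mem_false U v0⟩ with hp0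
  have hper : (ρ ^ (Fintype.card V + 2 * M.card)) p0 = p0 := by
    rw [← hN]
    exact hon.pow_card_apply (Finset.mem_univ p0)
  refine ⟨fun k => ((ρ ^ k) p0).1.1, ?_, ?_, ?_⟩
  · intro k
    simp only
    rw [pow_succ', Equiv.Perm.mul_apply]
    exact hstep _
  · intro k
    simp only
    rw [pow_add, Equiv.Perm.mul_apply, hper]
  · intro v
    -- the times correspond to the copies
    have hbij : Function.Bijective (fun k : Fin (Fintype.card V + 2 * M.card) => (ρ ^ (k : ℕ)) p0) := by
      rw [Nat.bijective_iff_surjective_and_card]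
      refine ⟨?_, ?_⟩
      · intro q
        obtain ⟨n, hn, hnq⟩ := hon.exists_pow_eq (Finset.mem_univ p0) (Finset.mem_univ q)
        rw [hN] at hn
        exact ⟨⟨n, hn⟩, hnq⟩
      · rw [Nat.card_eq_fintype_card, Nat.card_eq_fintype_card, Fintype.card_fin, ← hN,
          Finset.card_univ]
    have hcard : Nat.card {k : Fin (Fintype.card V + 2 * M.card) // ((ρ ^ (k : ℕ)) p0).1.1 = v} =
        Nat.card {q : SS U // q.1.1 = v} :=
      Nat.card_congr ((Equiv.ofBijective _ hbij).subtypeEquiv (fun k => Iff.rfl))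
    simp only
    rw [hcard]
    constructor
    · have : Nonempty {q : SS U // q.1.1 = v} := ⟨⟨⟨(v, false), mem_false U v⟩, rfl⟩⟩
      exact Nat.card_pos
    · have hinj : Function.Injective (fun q : {q : SS U // q.1.1 = v} => q.1.1.2) := by
        rintro ⟨q, hq⟩ ⟨q', hq'⟩ h
        exact Subtype.ext (Subtype.ext (Prod.ext (hq.trans hq'.symm) h))
      have := Nat.card_le_card_of_injective _ hinj
      have h2 : Nat.card Bool = 2 := by rw [Nat.card_eq_fintype_card, Fintype.card_bool]
      rwa [h2] at this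

end Pool.Agent.N768.CayD
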