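import Pool.Agent.N894.WF.DefsN

/-!
# Project WF, leaf N3: commutator-contractive approximations have the local Nikolov-Segal property
-/

set_option autoImplicit false

namespace Pool.Agent.N768.WF

open N894.WF

theorem t_N3 : N894.WF.LeafN3 := by
  classical
  intro h1 h2 G _ hG
  obtain ⟨M, hM⟩ := hG
  refine ⟨fun K => 2 * K, fun F K ε hε => ?_⟩
  set M' : ℝ := max M 0 with hM'
  have hM0 : 0 ≤ M' := le_max_right _ _
  have hMM : M ≤ M' := le_max_left _ _
  set ε' : ℝ := min ε (1 / (2 * (M' + 1))) with hε'
  have hpos : 0 < ε' := lt_min hε (by positivity)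
  have hle : ε' ≤ ε := min_le_left _ _
  have hle2 : ε' ≤ 1 / (2 * (M' + 1)) := min_le_right _ _
  obtain ⟨H, iH, fH, d, φ, d1, d2, d3, d4, d5, d6, d7, d8⟩ := hM F ε' hpos
  set s : ℝ := ε / ε' with hs
  have hs1 : 1 ≤ s := (one_le_div hpos).2 hle
  have hs0 : 0 < s := lt_of_lt_of_le one_pos hs1
  have hsε : s * ε' = ε := div_mul_cancel₀ _ hpos.ne'
  have hnn : ∀ a b, 0 ≤ d a b := by
    intro a b
    have e1 := d3 a b a
    have e2 : d a a = 0 := (d1 a a).2 rfl
    have e3 := d2 a b
    linarith
  refine ⟨H, iH, fH, fun a b => s * d a b, φ, ?_, ?_, ?_, ?_, ?_, ?_, ?_, ?_⟩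
  · intro a b
    rw [mul_eq_zero, or_iff_right hs0.ne', d1]
  · intro a b
    show s * d a b = s * d b a
    rw [d2]
  · intro a b c
    show s * d a c ≤ s * d a b + s * d b c
    rw [← mul_add]
    exact mul_le_mul_of_nonneg_left (d3 a b c) hs0.le
  · intro x a b
    show s * d (x * a) (x * b) = s * d a b
    rw [d4]
  · intro x a b
    show s * d (a * x) (b * x) = s * d a b
    rw [d5]
  · intro g hg h hh hgh
    show s * d (φ (g * h)) (φ g * φ h) ≤ ε
    rw [← hsε]
    exact mul_le_mul_of_nonneg_left (d6 g hg h hh hgh) hs0.le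
  · intro g hg hg1
    show 1 ≤ s * d (φ g) 1
    have := d7 g hg hg1
    nlinarith
  · intro T hT hT1 x hx
    have hT2 : ∀ t ∈ T, d t 1 ≤ ε' := by
      intro t ht
      have e1 : s * d t 1 ≤ s * ε' := by
        rw [hsε]
        exact hT1 t ht
      exact le_of_mul_le_mul_left e1 hs0
    have hnil : Group.IsNilpotent (Subgroup.closure (T : Set H)) := by
      refine h2 H (fun x => d x 1) M' ε' ?_ hpos.le hM0 (fun x => d1 x 1) (fun x => hnn x 1) ?_ ?_ ?_ ?_ T hT2
      · have e1 : M' * ε' ≤ M' * (1 / (2 * (M' + 1))) := mul_le_mul_of_nonneg_left hle2 hM0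
        have e2 : M' * (1 / (2 * (M' + 1))) < 1 := by
          rw [mul_one_div, div_lt_one (by positivity)]
          linarith
        linarith
      · intro x
        show d x⁻¹ 1 = d x 1
        have e1 := d4 x x⁻¹ 1
        rw [mul_inv_cancel, mul_one] at e1
        rw [← e1, d2]
      · intro x y
        show d (x * y) 1 ≤ d x 1 + d y 1
        have e1 := d5 y x 1
        rw [one_mul] at e1
        have e2 := d3 (x * y) y 1
        linarith
      · intro x y
        show d (x * y * x⁻¹) 1 = d y 1
        have e1 := d5 x (x * y * x⁻¹) 1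
        rw [one_mul, inv_mul_cancel_right] at e1
        have e2 := d4 x y 1
        rw [mul_one] at e2
        rw [← e1, e2]
      · intro a b
        show d (a * b * a⁻¹ * b⁻¹) 1 ≤ M' * d a 1 * d b 1
        refine (d8 a b).trans ?_
        have e1 : 0 ≤ d a 1 * d b 1 := mul_nonneg (hnn _ _) (hnn _ _)
        have e2 : M * (d a 1 * d b 1) ≤ M' * (d a 1 * d b 1) := mul_le_mul_of_nonneg_right hMM e1
        calc M * d a 1 * d b 1 = M * (d a 1 * d b 1) := by ring
          _ ≤ M' * (d a 1 * d b 1) := e2
          _ = M' * d a 1 * d b 1 := by ring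
    let T' : Finset (Subgroup.closure (T : Set H)) :=
      T.attach.map ⟨fun t => ⟨t.1, Subgroup.subset_closure t.2⟩, fun a b hab => by
        have := congrArg Subtype.val hab
        exact Subtype.ext this⟩
    have hT'card : T'.card = T.card := by
      simp [T']
    have hT'set : ((T' : Finset (Subgroup.closure (T : Set H))) : Set (Subgroup.closure (T : Set H))) =
        (Subtype.val : Subgroup.closure (T : Set H) → H) ⁻¹' (T : Set H) := by
      ext y
      simp only [T', Finset.coe_map, Set.mem_image, Finset.mem_coe,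
        Finset.mem_attach, true_and, Set.mem_preimage, Subtype.exists]
      constructor
      · rintro ⟨a, ha, rfl⟩
        exact ha
      · intro hy
        exact ⟨y.1, hy, rfl⟩
    have hcl : Subgroup.closure ((T' : Finset (Subgroup.closure (T : Set H))) :
        Set (Subgroup.closure (T : Set H))) = ⊤ := by
      rw [hT'set]
      exact Subgroup.closure_closure_coe_preimage
    rw [← Subgroup.map_subtype_commutator] at hx
    obtain ⟨x', hx', rfl⟩ := hx
    obtain ⟨l, hl1, hl2, hl3⟩ := h1 (Subgroup.closure (T : Set H)) T' hcl x' hx'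
    refine ⟨l.map (Subgroup.closure (T : Set H)).subtype, ?_, ?_, ?_⟩
    · rw [List.length_map]
      calc l.length ≤ 2 * T'.card := hl1
        _ = 2 * T.card := by rw [hT'card]
        _ ≤ 2 * K := Nat.mul_le_mul_left _ hT
    · intro y hy
      rw [List.mem_map] at hy
      obtain ⟨y', hy', rfl⟩ := hy
      obtain ⟨t, ht, z, hz⟩ := hl2 y' hy'
      have ht' : t.1 ∈ T := by
        have : t ∈ ((T' : Finset (Subgroup.closure (T : Set H))) : Set (Subgroup.closure (T : Set H))) := ht
        rw [hT'set] at this
        exact this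
      refine ⟨t.1, ht', z.1, ?_⟩
      rcases hz with hz | hz
      · left
        rw [hz]
        rfl
      · right
        rw [hz]
        rfl
    · rw [← hl3]
      exact (map_list_prod (Subgroup.closure (T : Set H)).subtype l).symm

end Pool.Agent.N768.WF
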